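import Pool.Agent.R225.LP.SM
import Pool.Agent.N275.GP.PH
import Pool.Agent.Y289.HI.All3

/-!
# The least distance of non-adjacent sides of a convex polygon without acute angles, and
circumscribed polygons with equal angles, except one which is larger
-/

set_option autoImplicit false

namespace Pool.Agent.V5helper91.TX

open MeasureTheory Set Filter Topology Complex
open Pool.Agent.R225.LP Pool.Agent.R225.LP.SM
open Pool.Agent.W780.PG (IsConvexPolygon region ang)
open Pool.Agent.Y289.SQ (Z area per)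
open Pool.Agent.Y289.HI (Circ)
open scoped Real ENNReal ComplexConjugate

variable {n : ℕ} {p : Fin (n + 1 + 3) → ℂ}

lemma key (hG : S_G1) (hP : IsConvexPolygon p) (hinj : Function.Injective p)
    (hE : ∀ k, 0 ≤ ip (nu p k) (nu p (k + 1))) {s : ℝ} (hs : ∀ k, s ≤ ‖p (k + 1) - p k‖) {i j : Fin (n + 1 + 3)}
    (h1 : j ≠ i) (h2 : j ≠ i + 1) (h3 : i ≠ j + 1) {x y : ℂ}
    (hx : x ∈ segment ℝ (p i) (p (i + 1))) (hy : y ∈ segment ℝ (p j) (p (j + 1))) :
    s ≤ ‖y - x‖ := by
  by_contra hlt
  push Not at hlt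
  have hu : ∀ i, ‖nu p i‖ = 1 := norm_nu hinj
  have hc : ∀ i, 0 < cr (nu p i) (nu p (i + 1)) := Pool.Agent.R225.LP.cr_nu hinj hP
  set v : ℂ := y - x with hv
  set d : Fin (n + 1 + 3) → ℝ := fun i => co p i - max 0 (ip (nu p i) v) with hd
  have hel : ∀ k, 0 < el (nu p) k d := by
    intro k
    obtain ⟨m, rfl⟩ : ∃ m, k = m + 1 := ⟨k - 1, by rw [sub_add_cancel]⟩
    have e1 := RG.el_co hP hinj (m + 1)
    have e2 := loss (hc m) (hc (m + 1)) (hu (m + 1)) (hE m) (hE (m + 1)) v
    have e3 := hs (m + 1)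
    have e4 : el (nu p) (m + 1) d = el (nu p) (m + 1) (co p) -
        ((max 0 (ip (nu p m) v) - max 0 (ip (nu p (m + 1)) v) * ip (nu p m) (nu p (m + 1))) /
          cr (nu p m) (nu p (m + 1)) +
        (max 0 (ip (nu p (m + 1 + 1)) v) - max 0 (ip (nu p (m + 1)) v) *
          ip (nu p (m + 1)) (nu p (m + 1 + 1))) / cr (nu p (m + 1)) (nu p (m + 1 + 1))) := by
      simp only [el, add_sub_cancel_right, hd]
      ring
    rw [e4, e1]
    linarith
  have hxk : ∀ k, ip (nu p k) x ≤ co p k := fun k =>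
    RG.ip_seg hx (SM.ver_le hP hinj k i) (SM.ver_le hP hinj k (i + 1))
  have hyk : ∀ k, ip (nu p k) y ≤ co p k := fun k =>
    RG.ip_seg hy (SM.ver_le hP hinj k j) (SM.ver_le hP hinj k (j + 1))
  have hvk : ∀ k, ip (nu p k) v = ip (nu p k) y - ip (nu p k) x := fun k => by
    rw [hv, ip_sub_right]
  have hdk : ∀ k, ip (nu p k) x ≤ d k := by
    intro k
    simp only [hd]
    rcases le_total 0 (ip (nu p k) v) with h | h
    · rw [max_eq_right h, hvk]; linarith [hyk k]
    · rw [max_eq_left h]; linarith [hxk k]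
  have hxi : ip (nu p i) x = co p i := RG.ip_seg_eq hx rfl (RG.co_side hinj i)
  have hyj : ip (nu p j) y = co p j := RG.ip_seg_eq hy rfl (RG.co_side hinj j)
  have hdi : d i = ip (nu p i) x := by
    simp only [hd]
    rw [max_eq_left (by rw [hvk, hxi]; linarith [hyk i]), hxi, sub_zero]
  have hdj : d j = ip (nu p j) x := by
    simp only [hd]
    rw [max_eq_right (by rw [hvk, hyj]; linarith [hxk j]), hvk, hyj]
    ring
  -- the polygon with the support numbers `d`
  obtain ⟨m, rfl⟩ : ∃ m, i = m + 1 := ⟨i - 1, by rw [sub_add_cancel]⟩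
  have q1 := ip_vx hc d (m + 1)
  have q2 := ip_vx hc d (m + 1 + 1)
  rw [add_sub_cancel_right] at q1 q2
  have q3 := UA.pos hG hP d hel j (m + 1) h1.symm h3
  have q4 := UA.pos hG hP d hel j (m + 1 + 1) h2.symm (fun h => h1 (add_right_cancel h).symm)
  have q5 := vx_sub hu hc d (m + 1)
  have hsl : 0 < sl (nu p) d (m + 1) := by rw [← UA.el_sl]; exact hel (m + 1)
  set q := vx (nu p) d (m + 1) with hq
  set q' := vx (nu p) d (m + 1 + 1) with hq'
  set l := sl (nu p) d (m + 1) with hl
  set r := ip (I * nu p (m + 1)) (x - q) with hr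
  have hn1 := norm_sq_eq_one (hu (m + 1))
  have hxq : ip (nu p (m + 1)) (x - q) = 0 := by rw [ip_sub_right, q1.1, hdi, sub_self]
  have hx' : x = q + (r : ℂ) * (I * nu p (m + 1)) := by
    have e : x - q = (r : ℂ) * (I * nu p (m + 1)) := by
      rw [hr]
      simp only [ip] at hxq
      apply Complex.ext
      · simp only [ip, Complex.mul_re, Complex.mul_im, Complex.ofReal_re, Complex.ofReal_im,
          Complex.I_re, Complex.I_im]
        linear_combination (-(x - q).re) * hn1 + (nu p (m + 1)).re * hxq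
      · simp only [ip, Complex.mul_re, Complex.mul_im, Complex.ofReal_re, Complex.ofReal_im,
          Complex.I_re, Complex.I_im]
        linear_combination (-(x - q).im) * hn1 + (nu p (m + 1)).im * hxq
    rw [← e]; ring
  have hr0 : 0 ≤ r := by
    have e1 := hdk m
    rw [hx', ip_add_right, ip_smul_right, q1.2, UA.ip_I] at e1
    have e2 : cr (nu p m) (nu p (m + 1)) * r ≥ 0 := by linarith
    exact nonneg_of_mul_nonneg_right e2 (hc m)
  have hrl : r ≤ l := by
    have e1 := hdk (m + 1 + 1)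
    have e3 : x = q' + ((r - l : ℝ) : ℂ) * (I * nu p (m + 1)) := by
      rw [hx']
      have : q' = q + (l : ℂ) * (I * nu p (m + 1)) := by rw [← q5]; ring
      rw [this]; push_cast; ring
    rw [e3, ip_add_right, ip_smul_right, q2.1, UA.ip_I] at e1
    have e4 : -cr (nu p (m + 1 + 1)) (nu p (m + 1)) = cr (nu p (m + 1)) (nu p (m + 1 + 1)) := by
      unfold cr; ring
    rw [e4] at e1
    have e2 : cr (nu p (m + 1)) (nu p (m + 1 + 1)) * (l - r) ≥ 0 := by linarith
    have := nonneg_of_mul_nonneg_right e2 (hc (m + 1))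
    linarith
  have hfin : ip (nu p j) x * l = ip (nu p j) q * (l - r) + ip (nu p j) q' * r := by
    have : q' = q + (l : ℂ) * (I * nu p (m + 1)) := by rw [← q5]; ring
    rw [this, hx']
    simp only [ip_add_right, ip_smul_right]
    ring
  have hcon : ip (nu p j) x * l < d j * l := by
    rw [hfin]
    rcases hr0.lt_or_eq with h | h
    · nlinarith [mul_pos (sub_pos.2 q4) h, mul_nonneg (sub_pos.2 q3).le (sub_nonneg.2 hrl)]
    · rw [← h]
      nlinarith [mul_pos (sub_pos.2 q3) hsl]
  rw [hdj] at hcon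
  exact lt_irrefl _ hcon


/-- the least distance of non-adjacent sides of a polygon without acute angles is its shortest
side -/
theorem sd_ge_side (hP : IsConvexPolygon p) (hE : ∀ k, 0 ≤ ip (nu p k) (nu p (k + 1))) {s : ℝ}
    (hs : ∀ k, s ≤ ‖p (k + 1) - p k‖) : s ≤ sd p := by
  have hinj := (Pool.Agent.W174.PG.basic (n + 1) p hP).1
  refine le_csInf ?_ ?_
  · exact ⟨_, 0, 0 + 1 + 1, RG.na1 _, RG.na2 _, RG.na3 _, _, left_mem_segment _ _ _, _,
      left_mem_segment _ _ _, rfl⟩
  · rintro r ⟨i, j, h1, h2, h3, x, hx, y, hy, rfl⟩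
    rw [dist_comm, dist_eq_norm]
    exact key g1_thm hP hinj hE hs h1 h2 h3 hx hy

/-- the inner product of successive normals is the cosine of the exterior angle -/
theorem ip_turn {m : ℕ} {p : Fin (m + 3) → ℂ} (hP : IsConvexPolygon p) (k : Fin (m + 3)) :
    ip (nu p k) (nu p (k + 1)) = Real.cos (π - ang p (k + 1)) := by
  obtain ⟨hang, -⟩ := Pool.Agent.W174.PG.angSum m p hP
  have h : nu p (k + 1) = cexp (((π - ang p (k + 1) : ℝ) : ℂ) * I) * nu p k :=
    Pool.Agent.N275.GP.nu_turn hP k (hang (k + 1)).1 (hang (k + 1)).2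
  have h0 : ‖nu p k‖ = 1 := Pool.Agent.N275.GP.norm_nu hP k
  have h1 := norm_sq_eq_one h0
  rw [h, ip]
  simp only [Complex.mul_re, Complex.mul_im, Complex.exp_ofReal_mul_I_re,
    Complex.exp_ofReal_mul_I_im]
  linear_combination (Real.cos (π - ang p (k + 1))) * h1

/-- in a circumscribed polygon with at least five vertices and equal angles, except one which is
larger, each side is shorter than twice the least distance of non-adjacent sides -/
theorem circ_sides {m : ℕ} (hm : 1 ≤ m) {p : Fin (m + 1 + 3) → ℂ} (hP : IsConvexPolygon p)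
    (hc : Circ p) {k : Fin (m + 1 + 3)} {α : ℝ} (h1 : ∀ j, j ≠ k → ang p j = α)
    (h2 : α ≤ ang p k) (i : Fin (m + 1 + 3)) : ‖p (i + 1) - p i‖ < 2 * sd p := by
  have hπ := Real.pi_pos
  obtain ⟨hang, hsum⟩ := Pool.Agent.Y289.HI.h_AN (m + 1) p hP
  obtain ⟨j₀, hj₀⟩ : ∃ j : Fin (m + 1 + 3), j ≠ k := exists_ne k
  have hα0 : 0 < α := by rw [← h1 j₀ hj₀]; exact (hang j₀).1
  have hα1 : α < π := by rw [← h1 j₀ hj₀]; exact (hang j₀).2
  have hsum' : ((m : ℝ) + 3) * (π - α) + (π - ang p k) = 2 * π := by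
    rw [← hsum, ← Finset.add_sum_erase _ _ (Finset.mem_univ k), add_comm]
    congr 1
    rw [Finset.sum_congr rfl (g := fun _ => π - α) fun j hj => by
      rw [h1 j (Finset.ne_of_mem_erase hj)]]
    rw [Finset.sum_const, Finset.card_erase_of_mem (Finset.mem_univ k), Finset.card_univ,
      Fintype.card_fin, nsmul_eq_mul]
    congr 1
    push_cast [Nat.add_sub_cancel]
    norm_num
  have hk1 := (hang k).2
  have hm' : (1 : ℝ) ≤ m := by exact_mod_cast hm
  have hα2 : π - α < π / 2 := by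
    have : 4 * (π - α) ≤ ((m : ℝ) + 3) * (π - α) :=
      mul_le_mul_of_nonneg_right (by linarith) (by linarith)
    linarith
  have hle : ∀ j, π - ang p j ≤ π - α := by
    intro j
    by_cases hj : j = k
    · rw [hj]; linarith
    · rw [h1 j hj]
  have hE : ∀ j, 0 ≤ ip (nu p j) (nu p (j + 1)) := by
    intro j
    rw [ip_turn hP]
    exact Real.cos_nonneg_of_mem_Icc ⟨by linarith [(hang (j + 1)).2], by linarith [hle (j + 1)]⟩
  have hTC := Pool.Agent.Y289.HI.h_TC (m + 1) p hP hc
  have hLE := Pool.Agent.Y289.HI.h_LE (m + 1) p hP hTC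
  obtain ⟨A, hA⟩ : ∃ A, A = Real.tan ((π - α) / 2) := ⟨_, rfl⟩
  obtain ⟨B, hB⟩ : ∃ B, B = Real.tan ((π - ang p k) / 2) := ⟨_, rfl⟩
  have hB0 : 0 < B := by
    rw [hB]
    exact Real.tan_pos_of_pos_of_lt_pi_div_two (by linarith) (by linarith)
  have hBA : B ≤ A := by
    rw [hA, hB]
    have hmono := Real.strictMonoOn_tan.monotoneOn
    exact hmono ⟨by linarith, by linarith⟩ ⟨by linarith, by linarith⟩ (by linarith)
  have hval : ∀ j, Real.tan ((π - ang p j) / 2) = if j = k then B else A := by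
    intro j
    by_cases hj : j = k
    · rw [if_pos hj, hj, hB]
    · rw [if_neg hj, h1 j hj, hA]
  obtain ⟨c, hc0, hside⟩ : ∃ c : ℝ, 0 < c ∧ ∀ j, ‖p (j + 1) - p j‖ =
      c * ((if j = k then B else A) + if j + 1 = k then B else A) := by
    refine ⟨per p / (2 * ∑ j, Real.tan ((π - ang p j) / 2)), ?_, fun j => ?_⟩
    · have hT : 0 < ∑ j, Real.tan ((π - ang p j) / 2) := by
        refine Finset.sum_pos (fun j _ => ?_) ⟨k, Finset.mem_univ k⟩
        rw [hval j]
        split_ifs <;> linarith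
      have hsn : ∀ j, 0 < ‖p (j + 1) - p j‖ := fun j =>
        norm_pos_iff.2 (sub_ne_zero.2 (Pool.Agent.N275.GP.side_ne (n := m + 1) hP j))
      have hper : 0 < per (n := m + 1) p := Finset.sum_pos (fun j _ => hsn j) ⟨k, Finset.mem_univ k⟩
      exact div_pos hper (mul_pos two_pos hT)
    · rw [hLE j, hval j, hval (j + 1)]
  have hmin : ∀ j, c * (A + B) ≤ ‖p (j + 1) - p j‖ := by
    intro j
    rw [hside j]
    refine mul_le_mul_of_nonneg_left ?_ hc0.le
    by_cases hj : j = k
    · have : j + 1 ≠ k := fun h => Pool.Agent.W174.PG.i1 j (h.trans hj.symm)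
      rw [if_pos hj, if_neg this]
      linarith
    · rw [if_neg hj]
      split_ifs <;> linarith
  have hsd := sd_ge_side hP hE hmin
  have hmax : ‖p (i + 1) - p i‖ ≤ c * (A + A) := by
    rw [hside i]
    refine mul_le_mul_of_nonneg_left ?_ hc0.le
    split_ifs <;> linarith
  have : c * (A + A) < 2 * (c * (A + B)) := by nlinarith
  linarith

end Pool.Agent.V5helper91.TX
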