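import Pool.Agent.V5helper91.TX.Near
import Pool.Agent.V5helper91.TX.Sides
import Pool.Agent.N275.GP.Fin2
import Pool.Agent.R225.LP.AJ

/-!
# Almost every polygon near a determined polygon is determined among all bounded convex domains
-/

set_option autoImplicit false

namespace Pool.Agent.V5helper91.TX

open MeasureTheory Set Filter Topology Complex
open Pool.Agent.W780.PG (IsConvexPolygon region ang lft)
open Pool.Agent.W703.GP (Isospectral dirichletEigenvalue)
open Pool.Agent.Y289.SQ (area per)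
open Pool.Agent.Y289.HI (Circ)
open Pool.Agent.R225.LP (sd)
open scoped Real ComplexConjugate

/-- determined among all convex polygons -/
def Det {n : ℕ} (p : Fin (n + 3) → ℂ) : Prop :=
  ∀ (m : ℕ) (q : Fin (m + 3) → ℂ), IsConvexPolygon q → Isospectral (region p) (region q) →
    ∃ φ : ℂ ≃ᵢ ℂ, φ '' region p = region q

theorem iso_of_ev {n m : ℕ} {p : Fin (n + 3) → ℂ} (hp : IsConvexPolygon p) {q : Fin (m + 3) → ℂ}
    (hq : IsConvexPolygon q)
    (h : ∀ k, 1 ≤ k → dirichletEigenvalue (region p) k = dirichletEigenvalue (region q) k) :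
    Isospectral (region p) (region q) := by
  refine Pool.Agent.R225.LP.almost hp hq ?_
  filter_upwards [eventually_ge_atTop 1] with k hk
  exact h k hk

/-- a bounded convex domain isospectral to a polygon is a polygon -/
theorem poly {n : ℕ} {p : Fin (n + 3) → ℂ} (hp : IsConvexPolygon p) {D : Set ℂ} (h1 : IsOpen D)
    (h2 : Convex ℝ D) (h3 : Bornology.IsBounded D) (h4 : D.Nonempty)
    (h : ∀ k, 1 ≤ k → dirichletEigenvalue (region p) k = dirichletEigenvalue D k) :
    ∃ (m : ℕ) (q : Fin (m + 3) → ℂ), IsConvexPolygon q ∧ region q = D ∧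
      Isospectral (region p) (region q) := by
  obtain ⟨m, q, hq, rfl⟩ := Pool.Agent.N596.IS.poly_of_iso h1 h2 h3 h4 hp
      fun k => (h (k + 1) (by omega)).symm
  exact ⟨m, q, hq, rfl, iso_of_ev hp hq h⟩

/-- **Near a polygon whose companions have as many vertices and short sides.** -/
theorem near_det {n : ℕ} {p₀ : Fin (n + 3) → ℂ} (hc₀ : IsConvexPolygon p₀)
    (hcomp : ∀ (m : ℕ) (q : Fin (m + 3) → ℂ), IsConvexPolygon q →
      Isospectral (region p₀) (region q) → ∃ r : Fin (n + 3) → ℂ, IsConvexPolygon r ∧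
        (∀ k, ‖r (k + 1) - r k‖ < 2 * sd p₀) ∧ ∃ φ : ℂ ≃ᵢ ℂ, φ '' region r = region q) :
    ∃ U G : Set (Fin (n + 3) → ℂ), IsOpen U ∧ p₀ ∈ U ∧ IsOpen G ∧ G ⊆ U ∧ volume (U \ G) = 0 ∧
      (∀ p ∈ U, IsConvexPolygon p ∧ ∀ (m : ℕ) (q : Fin (m + 3) → ℂ), IsConvexPolygon q →
        Isospectral (region p) (region q) → m = n) ∧ ∀ p ∈ G, Det p := by
  rcases n with _ | n
  · exfalso
    have h0 : sd p₀ = 0 := by
      unfold sd
      convert Real.sInf_empty using 2
      rw [eq_empty_iff_forall_notMem]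
      rintro r ⟨i, j, h1, h2, h3, -⟩
      revert h1 h2 h3
      revert i j
      decide
    obtain ⟨r, -, hs, -⟩ := hcomp 0 p₀ hc₀ (fun _ => rfl)
    have := hs 0
    rw [h0] at this
    have h1 := norm_nonneg (r (0 + 1) - r 0)
    linarith
  · obtain ⟨U, hU, hUo, hpU⟩ := eventually_nhds_iff.1 (near hc₀ hcomp)
    obtain ⟨G, hG, hv, h⟩ := Pool.Agent.N275.GP.og (n + 1)
    refine ⟨U, U ∩ G, hUo, hpU, hUo.inter hG, inter_subset_left, ?_, hU, ?_⟩
    · refine measure_mono_null ?_ hv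
      rintro p ⟨hp1, hp2⟩
      exact ⟨(hU p hp1).1, fun h => hp2 ⟨hp1, h⟩⟩
    · rintro p ⟨hp1, hp2⟩ m q hq hiso
      obtain ⟨-, K, hK⟩ := h p hp2
      obtain rfl := (hU p hp1).2 m q hq hiso
      exact hK (n + 1) le_rfl q hq fun k _ _ => hiso k

/-- circumscribed polygons with equal angles, except one which is larger -/
theorem circ_det {n : ℕ} {p : Fin (n + 3) → ℂ} (hp : IsConvexPolygon p) (hc : Circ p)
    {k : Fin (n + 3)} (h1 : ∀ i j, i ≠ k → j ≠ k → ang p i = ang p j)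
    (h2 : ∀ i, ang p i ≤ ang p k) : Det p := by
  obtain ⟨j₀, hj₀⟩ : ∃ j : Fin (n + 3), j ≠ k := exists_ne k
  intro m q hq h
  exact Pool.Agent.Y289.HI.circ n m p hp hc k (ang p j₀) (fun j hj => h1 j j₀ hj hj₀) (h2 j₀) q hq h

theorem circ_side {n : ℕ} (hn : 2 ≤ n) {p : Fin (n + 3) → ℂ} (hp : IsConvexPolygon p)
    (hc : Circ p) {k : Fin (n + 3)} (h1 : ∀ i j, i ≠ k → j ≠ k → ang p i = ang p j)
    (h2 : ∀ i, ang p i ≤ ang p k) (i : Fin (n + 3)) : ‖p (i + 1) - p i‖ < 2 * sd p := by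
  obtain ⟨j₀, hj₀⟩ : ∃ j : Fin (n + 3), j ≠ k := exists_ne k
  obtain ⟨n, rfl⟩ : ∃ n', n = n' + 1 := ⟨n - 1, by omega⟩
  exact circ_sides (by omega) hp hc (fun j hj => h1 j j₀ hj hj₀) (h2 j₀) i

/-- a disc which touches all sides -/
theorem circ_of_disc {n : ℕ} {p : Fin (n + 3) → ℂ} (hp : IsConvexPolygon p) {c : ℂ} {r : ℝ}
    (hr : 0 < r) (h1 : Metric.ball c r ⊆ region p)
    (h2 : ∀ i, ∃ z ∈ segment ℝ (p i) (p (i + 1)), dist z c = r) : Circ p := by
  obtain ⟨-, h16⟩ := Pool.Agent.W975.PG.hull Pool.Agent.W174.PG.basic n _ hp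
  refine ⟨c, r, hr, fun i => le_antisymm ?_ ?_⟩
  · obtain ⟨z, hz, hd⟩ := h2 i
    have hz0 : lft (p i) (p (i + 1)) z = 0 := by
      obtain ⟨s, t, -, -, hst, rfl⟩ := hz
      rw [Pool.Agent.W174.PG.lft_comb _ _ _ _ hst, Pool.Agent.W174.PG.lft_left,
        Pool.Agent.W174.PG.lft_right]
      ring
    have e : lft (p i) (p (i + 1)) c = lft (p i) (p (i + 1)) z +
        (conj (p (i + 1) - p i) * (c - z)).im := by
      unfold lft
      rw [← Complex.add_im]
      congr 1
      ring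
    rw [e, hz0, zero_add]
    calc (conj (p (i + 1) - p i) * (c - z)).im ≤ |(conj (p (i + 1) - p i) * (c - z)).im| :=
          le_abs_self _
      _ ≤ ‖conj (p (i + 1) - p i) * (c - z)‖ := Complex.abs_im_le_norm _
      _ = r * ‖p (i + 1) - p i‖ := by
          rw [norm_mul, Complex.norm_conj, ← dist_eq_norm c z, dist_comm, hd, mul_comm]
  · have hne : p (i + 1) - p i ≠ 0 := sub_ne_zero.2 (Pool.Agent.N275.GP.side_ne hp i)
    have hn : 0 < ‖p (i + 1) - p i‖ := norm_pos_iff.2 hne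
    refine le_of_forall_lt_imp_le_of_dense fun t ht => ?_
    rcases le_or_gt t 0 with h0 | h0
    · have hc : c ∈ region p := h1 (Metric.mem_ball_self hr)
      rw [h16] at hc
      exact h0.trans (hc i).le
    -- the point of the disc at distance `s < r` from the centre towards the side
    · have hs : t / ‖p (i + 1) - p i‖ < r := (div_lt_iff₀ hn).2 ht
      have hs0 : 0 < t / ‖p (i + 1) - p i‖ := by positivity
      set s := t / ‖p (i + 1) - p i‖ with hsdef
      have hmem : c - ((s / ‖p (i + 1) - p i‖ : ℝ) : ℂ) * (I * (p (i + 1) - p i)) ∈ region p := by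
        apply h1
        rw [Metric.mem_ball, dist_eq_norm]
        have : c - ((s / ‖p (i + 1) - p i‖ : ℝ) : ℂ) * (I * (p (i + 1) - p i)) - c =
            -(((s / ‖p (i + 1) - p i‖ : ℝ) : ℂ) * (I * (p (i + 1) - p i))) := by ring
        rw [this, norm_neg, norm_mul, norm_mul, Complex.norm_I, one_mul, Complex.norm_real,
          Real.norm_of_nonneg (by positivity), div_mul_cancel₀ _ hn.ne']
        exact hs
      rw [h16] at hmem
      have h3 : 0 < lft (p i) (p (i + 1))
        (c - ((s / ‖p (i + 1) - p i‖ : ℝ) : ℂ) * (I * (p (i + 1) - p i))) := hmem i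
      have e : lft (p i) (p (i + 1))
          (c - ((s / ‖p (i + 1) - p i‖ : ℝ) : ℂ) * (I * (p (i + 1) - p i))) =
          lft (p i) (p (i + 1)) c - s / ‖p (i + 1) - p i‖ * ‖p (i + 1) - p i‖ ^ 2 := by
        rw [Pool.Agent.W174.PG.lft_expand, Pool.Agent.W174.PG.lft_expand, Complex.sq_norm,
          Complex.normSq_apply]
        simp only [Complex.sub_re, Complex.sub_im, Complex.mul_re, Complex.mul_im,
          Complex.ofReal_re, Complex.ofReal_im, Complex.I_re, Complex.I_im]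
        ring
      have e2 : s / ‖p (i + 1) - p i‖ * ‖p (i + 1) - p i‖ ^ 2 = t := by
        rw [hsdef]
        field_simp
      rw [e, e2] at h3
      linarith

/-- parallelograms, and trapezoids whose legs are at distance at least the height -/
theorem trap_det {p : Fin (1 + 3) → ℂ} (hp : IsConvexPolygon p) {r : ℝ} (hr : 0 < r)
    (h : p 2 - p 3 = r * (p 1 - p 0))
    (hl : r = 1 ∨ ∀ z ∈ segment ℝ (p 0) (p 3), ∀ w ∈ segment ℝ (p 1) (p 2),
      Metric.infDist (p 3) (affineSpan ℝ {p 0, p 1} : Set ℂ) ≤ dist z w) : Det p := by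
  have hreg : region p = interior (convexHull ℝ {p 0, p 1, p 2, p 3}) := by
    unfold region
    congr 2
    ext z
    constructor
    · rintro ⟨i, rfl⟩
      fin_cases i <;> simp
    · rintro (rfl | rfl | rfl | rfl)
      exacts [⟨0, rfl⟩, ⟨1, rfl⟩, ⟨2, rfl⟩, ⟨3, rfl⟩]
  have hne : (interior (convexHull ℝ {p 0, p 1, p 2, p 3})).Nonempty := by
    rw [← hreg]
    exact (Pool.Agent.W703.GP.region_facts hp).2.2.2.1
  intro m q hq hiso
  rcases hl with hl | hl
  · have hc : p 2 = p 1 + p 3 - p 0 := by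
      rw [hl] at h
      linear_combination h + Complex.ofReal_one * (p 1 - p 0)
    rw [hreg, hc] at hiso ⊢
    rw [hc] at hne
    obtain ⟨h', b', x, h1, h2, h3, hφ⟩ := Pool.Agent.R225.LP.par_gen (p 0) (p 1) (p 3) hne
    exact hφ.trans (Pool.Agent.R225.LP.tz_main Pool.Agent.R225.LP.h_B5 h1 h2
        (by rw [add_neg_cancel, mul_zero]; exact h2) h3 hq
        (Pool.Agent.W703.GP.iso_trans hφ.symm.iso hiso))
  · rw [hreg] at hiso ⊢
    obtain ⟨h', b', x, y, h1, h2, h3, h4, hφ⟩ :=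
      Pool.Agent.R225.LP.tr_gen (p 0) (p 1) (p 2) (p 3) r hr h hne hl
    exact hφ.trans (Pool.Agent.R225.LP.tz_main Pool.Agent.R225.LP.h_B5 h1 h2 h3 h4 hq
      (Pool.Agent.W703.GP.iso_trans hφ.symm.iso hiso))

end Pool.Agent.V5helper91.TX
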