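import Pool.Agent.V5helper91.TX.Near0

/-! # Companions near a determined polygon -/

set_option autoImplicit false

namespace Pool.Agent.V5helper91.TX

open MeasureTheory Set Filter Topology Complex
open Pool.Agent.W780.PG (IsConvexPolygon region ang lft reg creg side)
open Pool.Agent.Y289.SQ (Z area per)
open Pool.Agent.W703.GP (Isospectral Yn vert ev h_PI iso_of_congr iso_trans iso_symm
  region_facts comp cont_vert)
open Pool.Agent.R225.LP (sd nb least_distance)
open scoped Real ComplexConjugate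

/-- **Companions near a determined polygon.** -/
theorem near {n : ℕ} {p₀ : Fin (n + 1 + 3) → ℂ} (hc₀ : IsConvexPolygon p₀)
    (hcomp : ∀ (m : ℕ) (q : Fin (m + 3) → ℂ), IsConvexPolygon q →
      Isospectral (region p₀) (region q) → ∃ r : Fin (n + 1 + 3) → ℂ, IsConvexPolygon r ∧
        (∀ k, ‖r (k + 1) - r k‖ < 2 * sd p₀) ∧ ∃ φ : ℂ ≃ᵢ ℂ, φ '' region r = region q) :
    ∀ᶠ p in 𝓝 p₀, IsConvexPolygon p ∧ ∀ (m : ℕ) (q : Fin (m + 3) → ℂ), IsConvexPolygon q →
      Isospectral (region p) (region q) → m = n + 1 := by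
  by_contra hcon
  obtain ⟨po, pc, pb, pn, -⟩ := region_facts hc₀
  have hsd₀ : 0 < sd p₀ := (nb n p₀ hc₀).1
  obtain ⟨δ, hδ⟩ : ∃ δ : ℝ, δ = sd p₀ / 4 := ⟨_, rfl⟩
  have hδ0 : 0 < δ := by rw [hδ]; positivity
  have hball : ∀ ε : ℝ, 0 < ε → ∀ᶠ p in 𝓝 p₀, ∀ i, ‖p i - p₀ i‖ ≤ ε := by
    intro ε hε
    filter_upwards [Metric.ball_mem_nhds p₀ hε] with p hp i
    rw [Metric.mem_ball, dist_pi_lt_iff hε] at hp
    have := hp i
    rw [dist_eq_norm] at this
    exact this.le
  have hfr := ((not_eventually.1 hcon).and_eventually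
    (Pool.Agent.W688.GP.convex_near p₀ hc₀)).and_eventually (hball δ hδ0)
  obtain ⟨P, hP, hPg⟩ := exists_seq_forall_of_frequently hfr
  obtain ⟨B, hB⟩ := exists_nat_gt ((per p₀ + 2 * ((n + 1 : ℕ) + 3) * δ) / (sd p₀ / 2))
  -- every bad polygon has a bad companion
  have hbad : ∀ j, ∃ m, m ≤ B ∧ m + 1 ≠ n + 1 ∧ ∃ z ∈ Yn (m + 1),
      Isospectral (region (P j)) (region (vert z)) := by
    intro j
    obtain ⟨⟨h1, hcj⟩, hnj⟩ := hPg j
    have h2 : ∃ (m : ℕ) (q : Fin (m + 3) → ℂ), IsConvexPolygon q ∧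
        Isospectral (region (P j)) (region q) ∧ m ≠ n + 1 := by
      by_contra hno
      apply h1
      refine ⟨hcj, fun m q hq hiso => ?_⟩
      by_contra hno'
      exact hno ⟨m, q, hq, hiso, hno'⟩
    obtain ⟨m, q, hq, hiso, hno⟩ := h2
    obtain ⟨hm1, -, h3⟩ := least_distance (n := n) (P j) q hcj hq hiso
    obtain ⟨m, rfl⟩ : ∃ m', m = m' + 1 := ⟨m - 1, by omega⟩
    have hsdj : 0 < sd (P j) := (nb n (P j) hcj).1
    have h4 := Pool.Agent.R225.LP.GB.sd_ge (n := n + 1) hnj hsdj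
    have h5 := Pool.Agent.R225.LP.GB.per_le (n := n + 1) hnj
    have h6 : sd p₀ / 2 ≤ sd (P j) := by rw [hδ] at h4; linarith
    have h9 : m ≤ B := by
      have h7 : ((m : ℝ) + 1 + 3) * (sd p₀ / 2) ≤ per p₀ + 2 * ((n + 1 : ℕ) + 3) * δ := by
        push_cast at h3 h5 ⊢
        have : ((m : ℝ) + 1 + 3) * (sd p₀ / 2) ≤ ((m : ℝ) + 1 + 3) * sd (P j) :=
          mul_le_mul_of_nonneg_left h6 (by positivity)
        linarith
      have h8 : (m : ℝ) + 1 + 3 ≤ (per p₀ + 2 * ((n + 1 : ℕ) + 3) * δ) / (sd p₀ / 2) :=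
        (le_div_iff₀ (by positivity)).2 h7
      have : (m : ℝ) < B := by linarith
      exact (Nat.cast_lt.1 this).le
    obtain ⟨z, hz, θ, v, hθ⟩ := Pool.Agent.W703.GP.h_NF (m + 1) q hq
    obtain ⟨ψ, hψ⟩ := Pool.Agent.W703.GP.h_RG (m + 1) (vert z) q θ v hθ
    exact ⟨m, h9, hno, z, hz, iso_trans hiso (iso_symm (iso_of_congr h_PI ψ hψ))⟩
  choose μ hμ hμn z hz hziso using hbad
  -- one value of m occurs infinitely often
  obtain ⟨m, hm⟩ : ∃ m, ∃ᶠ j in atTop, μ j = m := by
    by_contra hno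
    push Not at hno
    have h1 : ∀ m ∈ Finset.range (B + 1), ∀ᶠ j in atTop, μ j ≠ m := fun m _ => hno m
    have h2 := (Filter.eventually_all_finset (Finset.range (B + 1))).2 h1
    obtain ⟨j, hj⟩ := h2.exists
    exact hj (μ j) (Finset.mem_range.2 (Nat.lt_succ_of_le (hμ j))) rfl
  obtain ⟨ψ, hψ, hψm⟩ := extraction_of_frequently_atTop hm
  have hmn : m + 1 ≠ n + 1 := by rw [← hψm 0]; exact hμn _
  have hex : ∀ j, ∃ y ∈ Yn (m + 1), Isospectral (region (P (ψ j))) (region (vert y)) := by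
    intro j
    have h1 := hψm j
    have h2 := hz (ψ j)
    have h3 := hziso (ψ j)
    revert h2 h3
    generalize z (ψ j) = y
    revert y
    rw [h1]
    intro y h2 h3
    exact ⟨y, h2, h3⟩
  choose y hy hyiso using hex
  have hPψ : Tendsto (fun j => P (ψ j)) atTop (𝓝 p₀) := hP.comp hψ.tendsto_atTop
  have hlim : ∀ k, 1 ≤ k →
      Tendsto (fun j => ev (region (vert (y j))) k) atTop (𝓝 (ev (region p₀) k)) := by
    intro k hk
    have h1 := Pool.Agent.W703.GP.h_CC (n + 1) (fun j => P (ψ j)) p₀ hPψ pn k hk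
    exact h1.congr fun j => hyiso j k
  obtain ⟨φ, hφ, z', hz', hne, hiso, -⟩ := comp po pb pn (m + 1) y hy hlim
  have hyφ : Tendsto (fun j => y (φ j)) atTop (𝓝 z') := hz'
  have hPφ : Tendsto (fun j => P (ψ (φ j))) atTop (𝓝 p₀) := hPψ.comp hφ.tendsto_atTop
  -- the limit is congruent to the polygon
  obtain ⟨r, hcr, hsr, χ, hχ⟩ : ∃ r : Fin (n + 1 + 3) → ℂ, IsConvexPolygon r ∧
      (∀ k, ‖r (k + 1) - r k‖ < 2 * sd p₀) ∧ ∃ χ : ℂ ≃ᵢ ℂ, χ '' region r = region (vert z') := by
    obtain ⟨m', q, hq, hreg⟩ := Pool.Agent.Y459.HI.vs (range (vert z')) (finite_range _) hne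
    have hreg' : region q = region (vert z') := hreg
    rw [← hreg'] at hiso ⊢
    exact hcomp m' q hq hiso
  have hcl : χ '' convexHull ℝ (range r) = convexHull ℝ (range (vert z')) := by
    obtain ⟨-, -, -, -, -, -, a7, -⟩ := Pool.Agent.W174.PG.basic (n + 1) _ hcr
    obtain ⟨a15, a16⟩ := Pool.Agent.W975.PG.hull Pool.Agent.W174.PG.basic (n + 1) _ hcr
    have h1 : closure (region (vert z')) = convexHull ℝ (range (vert z')) := by
      unfold region
      rw [(convex_convexHull ℝ _).closure_interior_eq_closure_of_nonempty_interior hne]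
      exact ((finite_range (vert z')).isCompact_convexHull ℝ).isClosed.closure_eq
    rw [← a15, ← a7, ← a16, ← h1, ← hχ]
    exact χ.toHomeomorph.image_closure _
  -- the vertices stay apart
  have hvt : ∀ i, Tendsto (fun j => vert (y (φ j)) i) atTop (𝓝 (vert z' i)) := fun i =>
    (((continuous_apply i).comp (cont_vert (m + 1))).tendsto z').comp hyφ
  have hapart : ∀ a b, a ≠ b → sd p₀ ≤ ‖vert z' a - vert z' b‖ := by
    intro a b hab
    have hL : Tendsto (fun j => ‖vert (y (φ j)) a - vert (y (φ j)) b‖) atTop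
        (𝓝 ‖vert z' a - vert z' b‖) := ((hvt a).sub (hvt b)).norm
    refine le_of_forall_pos_le_add fun ε hε => ?_
    have h1 : ∀ᶠ j in atTop, sd p₀ - ε ≤ ‖vert (y (φ j)) a - vert (y (φ j)) b‖ := by
      filter_upwards [hPφ.eventually (hball (ε / 2) (by positivity))] with j hj
      have hcj : IsConvexPolygon (P (ψ (φ j))) := (hPg _).1.2
      have h2 := Pool.Agent.R225.LP.GB.sd_ge (n := n + 1) hj (nb n _ hcj).1
      obtain ⟨-, h3, -⟩ := least_distance (n := n) (P (ψ (φ j))) (vert (y (φ j))) hcj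
        (hy (φ j)).2 (hyiso (φ j))
      have h4 := sd_le_dist (vert (y (φ j))) hab
      have h5 : sd (P (ψ (φ j))) ≤ ‖vert (y (φ j)) a - vert (y (φ j)) b‖ := h3 ▸ h4
      linarith
    have := ge_of_tendsto hL h1
    linarith
  have hlft : ∀ i j, 0 ≤ lft (vert z' i) (vert z' (i + 1)) (vert z' j) := by
    intro i j
    exact lft_limit (hvt i) (hvt (i + 1)) (hvt j) fun l =>
      Pool.Agent.W174.PG.l_nonneg (n := m + 1) (hy (φ l)).2 i j
  -- count the vertices
  choose σ hσ using vertex_image hcr hcl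
  have hinj : Function.Injective r := (Pool.Agent.W174.PG.basic _ _ hcr).1
  have hσi : Function.Injective σ := by
    intro k l hkl
    apply hinj
    apply χ.injective
    rw [← hσ k, ← hσ l, hkl]
  have hcard : n + 1 + 3 ≤ m + 1 + 3 := by
    have := Fintype.card_le_of_injective σ hσi
    rwa [Fintype.card_fin, Fintype.card_fin] at this
  obtain ⟨i, hi⟩ : ∃ i, ∀ k, σ k ≠ i := by
    by_contra hno
    push Not at hno
    have := Fintype.card_le_of_surjective σ hno
    rw [Fintype.card_fin, Fintype.card_fin] at this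
    omega
  have hii : vert z' (i + 1) ≠ vert z' i := by
    intro h
    have h1 : i + 1 ≠ i := Pool.Agent.W174.PG.i1 i
    have := hapart _ _ h1
    rw [h, sub_self, norm_zero] at this
    linarith
  have hxint := not_interior hii (hlft i)
  have hx1 : χ.symm (vert z' i) ∈ convexHull ℝ (range r) := by
    have : vert z' i ∈ convexHull ℝ (range (vert z')) := subset_convexHull ℝ _ ⟨i, rfl⟩
    rw [← hcl] at this
    obtain ⟨w, hw, hwi⟩ := this
    rw [← hwi, χ.symm_apply_apply]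
    exact hw
  have hx2 : χ.symm (vert z' i) ∉ region r := by
    intro h
    apply hxint
    have : χ (χ.symm (vert z' i)) ∈ region (vert z') := by rw [← hχ]; exact ⟨_, h, rfl⟩
    rwa [χ.apply_symm_apply] at this
  have hd : ∀ k, sd p₀ ≤ dist (χ.symm (vert z' i)) (r k) := by
    intro k
    have h1 := hapart i (σ k) (hi k).symm
    rw [hσ k, ← dist_eq_norm] at h1
    rwa [← χ.symm.dist_eq, χ.symm_apply_apply] at h1
  have hx3 : ∀ k, χ.symm (vert z' i) ≠ r k := by
    intro k h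
    have := hd k
    rw [h, dist_self] at this
    linarith
  obtain ⟨k, hk⟩ := on_side hcr hx1 hx2 hx3
  have h1 : dist (r k) (χ.symm (vert z' i)) + dist (χ.symm (vert z' i)) (r (k + 1)) =
      dist (r k) (r (k + 1)) := dist_add_dist_of_mem_segment (openSegment_subset_segment _ _ _ hk)
  have h2 := hd k
  have h3 := hd (k + 1)
  have h4 := hsr k
  rw [dist_comm] at h2
  rw [← dist_eq_norm, dist_comm] at h4
  linarith

end Pool.Agent.V5helper91.TX
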