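import Pool.Agent.R225.LP.GB

/-!
# Companions of polygons near a determined polygon whose sides are shorter than twice the least
distance of two non-adjacent sides have the same number of vertices
-/

set_option autoImplicit false

namespace Pool.Agent.V5helper91.TX

open MeasureTheory Set Filter Topology Complex
open Pool.Agent.W780.PG (IsConvexPolygon region ang lft reg creg side)
open Pool.Agent.Y289.SQ (Z area per)
open Pool.Agent.W703.GP (Isospectral Yn vert ev h_PI iso_of_congr iso_trans iso_symm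
  region_facts comp cont_vert)
open Pool.Agent.R225.LP (sd nb least_distance)
open scoped Real ComplexConjugate

theorem three_ne (m : ℕ) : (1 + 1 + 1 : Fin (m + 1 + 3)) ≠ 0 := by
  intro h
  have h1 := congrArg Fin.val h
  rw [Fin.val_add, Fin.val_add] at h1
  have h2 : ((1 : Fin (m + 1 + 3)) : ℕ) = 1 := rfl
  rw [h2, Fin.val_zero, Nat.mod_eq_of_lt (show 1 + 1 < m + 1 + 3 by omega),
    Nat.mod_eq_of_lt (show 1 + 1 + 1 < m + 1 + 3 by omega)] at h1
  omega

theorem two_ne' (m : ℕ) : (1 + 1 : Fin (m + 3)) ≠ 0 := by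
  intro h
  have h1 := congrArg Fin.val h
  rw [Fin.val_add] at h1
  have h2 : ((1 : Fin (m + 3)) : ℕ) = 1 := rfl
  rw [h2, Fin.val_zero, Nat.mod_eq_of_lt (show 1 + 1 < m + 3 by omega)] at h1
  omega

/-- two vertices have at least the least distance of two non-adjacent sides -/
theorem sd_le_dist {m : ℕ} (q : Fin (m + 1 + 3) → ℂ) {a b : Fin (m + 1 + 3)} (hab : a ≠ b) :
    sd q ≤ ‖q a - q b‖ := by
  have hbd : BddBelow {r : ℝ | ∃ i j : Fin (m + 1 + 3), j ≠ i ∧ j ≠ i + 1 ∧ i ≠ j + 1 ∧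
      ∃ x ∈ segment ℝ (q i) (q (i + 1)), ∃ y ∈ segment ℝ (q j) (q (j + 1)), r = dist x y} := by
    refine ⟨0, ?_⟩
    rintro r ⟨-, -, -, -, -, -, -, -, -, rfl⟩
    exact dist_nonneg
  -- adjacent vertices
  have key : ∀ c : Fin (m + 1 + 3), sd q ≤ dist (q c) (q (c + 1)) := by
    intro c
    refine csInf_le hbd ⟨c - 1, c + 1, ?_, ?_, ?_, q c, ?_, q (c + 1), left_mem_segment _ _ _, rfl⟩
    · intro h
      apply two_ne' (m + 1)
      have : c + 1 - (c - 1) = 0 := by rw [h, sub_self]
      rw [← this]; abel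
    · rw [sub_add_cancel]
      intro h
      have : c + 1 - c = 0 := by rw [h, sub_self]
      rw [add_sub_cancel_left] at this
      have h1 := congrArg Fin.val this
      exact absurd h1 (by simp)
    · intro h
      apply three_ne m
      have : c + 1 + 1 - (c - 1) = 0 := by rw [← h, sub_self]
      rw [← this]; abel
    · have := right_mem_segment ℝ (q (c - 1)) (q (c - 1 + 1))
      rwa [sub_add_cancel] at this ⊢
  rw [← dist_eq_norm]
  by_cases h1 : b = a + 1
  · rw [h1]; exact key a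
  by_cases h2 : a = b + 1
  · rw [h2, dist_comm]; exact key b
  exact csInf_le hbd ⟨a, b, hab.symm, h1, h2, q a, left_mem_segment _ _ _, q b,
    left_mem_segment _ _ _, rfl⟩

/-- the vertices of a convex polygon go to points of a list with a congruent convex hull -/
theorem vertex_image {n m : ℕ} {p : Fin (n + 3) → ℂ} (hp : IsConvexPolygon p)
    {Q : Fin (m + 3) → ℂ} {φ : ℂ ≃ᵢ ℂ}
    (h : φ '' convexHull ℝ (range p) = convexHull ℝ (range Q)) (k : Fin (n + 3)) :
    ∃ i, Q i = φ (p k) := by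
  obtain ⟨-, -, -, -, -, -, -, -, -, -, -, -, -, b14⟩ := Pool.Agent.W174.PG.basic n _ hp
  obtain ⟨b15, -⟩ := Pool.Agent.W975.PG.hull Pool.Agent.W174.PG.basic n _ hp
  have hex : φ (p k) ∈ extremePoints ℝ (convexHull ℝ (range Q)) := by
    rw [mem_extremePoints_iff_left]
    refine ⟨?_, ?_⟩
    · rw [← h]
      exact ⟨p k, subset_convexHull ℝ _ ⟨k, rfl⟩, rfl⟩
    · intro y hy z hz hyz
      by_contra hne
      have hyz' : y ≠ z := by
        rintro rfl
        rw [openSegment_same] at hyz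
        exact hne hyz.symm
      rw [← h] at hy hz
      obtain ⟨y', hy', rfl⟩ := hy
      obtain ⟨z', hz', rfl⟩ := hz
      apply b14 k y' (by rw [b15]; exact hy') z' (by rw [b15]; exact hz')
        (fun h => hyz' (by rw [h]))
      obtain ⟨α, β, hα, hβ, hαβ, heq⟩ := hyz
      refine ⟨α, β, hα, hβ, hαβ, ?_⟩
      apply φ.injective
      have e1 : α • y' + β • z' = y' + β • (z' - y') := by
        have : α = 1 - β := by linarith
        rw [this, sub_smul, one_smul, smul_sub]
        ring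
      rw [e1, Pool.Agent.W780.TR.isom_affine, ← heq]
      have : α = 1 - β := by linarith
      rw [this, sub_smul, one_smul, smul_sub]
      ring
  obtain ⟨i, hi⟩ := extremePoints_convexHull_subset hex
  exact ⟨i, hi⟩

/-- a boundary point which is not a vertex lies inside a side -/
theorem on_side {n : ℕ} {p : Fin (n + 3) → ℂ} (hp : IsConvexPolygon p) {x : ℂ}
    (h1 : x ∈ convexHull ℝ (range p)) (h2 : x ∉ region p) (h3 : ∀ k, x ≠ p k) :
    ∃ k, x ∈ openSegment ℝ (p k) (p (k + 1)) := by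
  obtain ⟨b15, b16⟩ := Pool.Agent.W975.PG.hull Pool.Agent.W174.PG.basic n _ hp
  rw [← b15] at h1
  rw [b16] at h2
  obtain ⟨-, -, -, -, -, -, -, -, -, -, b11, -⟩ := Pool.Agent.W174.PG.basic n _ hp
  have : ∃ i, ¬ 0 < lft (p i) (p (i + 1)) x := by
    by_contra hno
    push Not at hno
    exact h2 hno
  obtain ⟨i, hi⟩ := this
  exact ⟨i, (b11 x h1 i (le_antisymm (not_lt.1 hi) (h1 i)) h3).1⟩

theorem lft_cont3 : Continuous fun x : ℂ × ℂ × ℂ => lft x.1 x.2.1 x.2.2 := by
  unfold lft
  refine Complex.continuous_im.comp ?_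
  refine (Complex.continuous_conj.comp (continuous_snd.fst.sub continuous_fst)).mul
    (continuous_snd.snd.sub continuous_fst)

theorem lft_limit {a b c : ℕ → ℂ} {a' b' c' : ℂ} (ha : Tendsto a atTop (𝓝 a'))
    (hb : Tendsto b atTop (𝓝 b')) (hc : Tendsto c atTop (𝓝 c'))
    (h : ∀ l, 0 ≤ lft (a l) (b l) (c l)) : 0 ≤ lft a' b' c' := by
  have h0 := ha.prodMk_nhds (hb.prodMk_nhds hc)
  have h1 := (lft_cont3.tendsto (a', b', c')).comp h0
  exact ge_of_tendsto h1 (Eventually.of_forall h)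

/-- the hull lies on one side of the line through two points, so these are boundary points -/
theorem not_interior {m : ℕ} {Q : Fin (m + 3) → ℂ} {i : Fin (m + 3)} (hne : Q (i + 1) ≠ Q i)
    (h : ∀ j, 0 ≤ lft (Q i) (Q (i + 1)) (Q j)) : Q i ∉ interior (convexHull ℝ (range Q)) := by
  have hsub : convexHull ℝ (range Q) ⊆ {z | 0 ≤ lft (Q i) (Q (i + 1)) z} := by
    refine convexHull_min ?_ ?_
    · rintro _ ⟨j, rfl⟩
      exact h j
    · intro x hx y hy s t hs ht hst
      change 0 ≤ lft (Q i) (Q (i + 1)) (s • x + t • y)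
      rw [Pool.Agent.W174.PG.lft_comb _ _ _ _ hst]
      exact add_nonneg (mul_nonneg hs hx) (mul_nonneg ht hy)
  intro hint
  have hc : Continuous fun t : ℝ => Q i - (t : ℂ) * (I * (Q (i + 1) - Q i)) := by fun_prop
  have hev : ∀ᶠ t : ℝ in 𝓝 0, Q i - (t : ℂ) * (I * (Q (i + 1) - Q i)) ∈
      interior (convexHull ℝ (range Q)) := by
    apply hc.continuousAt.eventually (isOpen_interior.mem_nhds _)
    simpa using hint
  have hev' : ∀ᶠ t : ℝ in 𝓝[>] 0, Q i - (t : ℂ) * (I * (Q (i + 1) - Q i)) ∈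
      interior (convexHull ℝ (range Q)) := hev.filter_mono nhdsWithin_le_nhds
  obtain ⟨t, ht0, ht⟩ := (eventually_mem_nhdsWithin.and hev').exists
  have ht0' : 0 < t := ht0
  have h1 := hsub (interior_subset ht)
  have h2 : lft (Q i) (Q (i + 1)) (Q i - (t : ℂ) * (I * (Q (i + 1) - Q i))) =
      -(t * ‖Q (i + 1) - Q i‖ ^ 2) := by
    rw [Pool.Agent.W174.PG.lft_expand, Complex.sq_norm, Complex.normSq_apply]
    simp only [Complex.sub_re, Complex.sub_im, Complex.mul_re, Complex.mul_im, Complex.ofReal_re,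
      Complex.ofReal_im, Complex.I_re, Complex.I_im]
    ring
  have h3 : 0 < ‖Q (i + 1) - Q i‖ := norm_pos_iff.2 (sub_ne_zero.2 hne)
  have h4 : 0 ≤ lft (Q i) (Q (i + 1)) (Q i - (t : ℂ) * (I * (Q (i + 1) - Q i))) := h1
  rw [h2] at h4
  have : 0 < t * ‖Q (i + 1) - Q i‖ ^ 2 := by positivity
  linarith

end Pool.Agent.V5helper91.TX
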