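import Pool.Agent.V5helper91.TX.Fin

set_option autoImplicit false

/-!
# Near a determined polygon, almost every polygon is determined among all bounded convex domains

Almost every convex `N`-gon is known to be determined by its Dirichlet spectrum among the convex
polygons with at most `N` vertices; a companion with more vertices is excluded there only if `N + 1`
times the least distance `δ` of two non-adjacent sides is larger than the perimeter. It is proved
here that there are no such companions near any `N`-gon `P₀` whose companions (for instance only `P₀`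
itself) have `N` vertices and sides shorter than `2 δ (P₀)`. So `P₀` has a neighbourhood in which the
spectrum alone tells the number of vertices, and in which almost every polygon is determined up to
congruence among all bounded convex domains.

This applies to the trapezoids and parallelograms which are known to be determined and whose sides
are shorter than `2 δ`, and to the following polygons with any number `N` of vertices. Let `P` be a
circumscribed `N`-gon all of whose angles are equal, except one which is at least as large. Then `P`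
is determined among all bounded convex domains, and, for `N ≥ 5`, almost every polygon near `P` is so.
The perimeter of `P` may be close to `2 (N - 1) δ`.

Main idea: let polygons `P_j` converge to `P₀` and let `Q_j` be companions with another number of
vertices. The exponential rate of the heat trace gives `δ (Q_j) = δ (P_j)`; so the numbers of vertices
of the `Q_j` are bounded, and any two vertices of `Q_j` are at distance at least `δ (P_j)`. A limit of
the `Q_j` is a companion of `P₀`, hence an `N`-gon, and a superfluous vertex of the `Q_j` tends to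
a point of one of its sides at distance at least `δ (P₀)` from both ends, which is impossible. For
circumscribed polygons the three classical heat invariants are combined with the theorem on equal
variables, and `δ` is found by moving the sides of a polygon without acute angles.
-/

open MeasureTheory Filter Set
open Pool.Agent.W780.PG (IsConvexPolygon region)
open Pool.Agent.W703.GP (dirichletEigenvalue)

namespace Pool.Agent.Results.MP_5b0138_an.NearDeterminedPolygons

/-- a bounded convex domain of the plane -/
structure ConvexDomain (D : Set ℂ) : Prop where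
  isOpen : IsOpen D
  convex : Convex ℝ D
  isBounded : Bornology.IsBounded D
  nonempty : D.Nonempty

/-- `D` is the interior of a convex polygon with exactly `k` vertices -/
def IsPolygon (k : ℕ) (D : Set ℂ) : Prop :=
  ∃ m, m + 3 = k ∧ ∃ q : Fin (m + 3) → ℂ, IsConvexPolygon q ∧ region q = D

/-- the same Dirichlet eigenvalues, with multiplicity -/
def Isospectral (D D' : Set ℂ) : Prop :=
  ∀ k, 1 ≤ k → dirichletEigenvalue D k = dirichletEigenvalue D' k

/-- congruence: `φ : ℂ ≃ᵢ ℂ` is an isometry of the plane -/
def Congruent (D D' : Set ℂ) : Prop := ∃ φ : ℂ ≃ᵢ ℂ, φ '' D = D'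

/-- `D` is determined up to congruence among all bounded convex domains by its Dirichlet spectrum,
and among all convex polygons by all but finitely many of its Dirichlet eigenvalues -/
def Determined (D : Set ℂ) : Prop :=
  (∀ D' : Set ℂ, ConvexDomain D' → Isospectral D D' → Congruent D D') ∧
  ∀ (N : ℕ) (D' : Set ℂ), IsPolygon N D' →
    (∀ᶠ k in atTop, dirichletEigenvalue D k = dirichletEigenvalue D' k) → Congruent D D'

/-- `p₀` has a neighbourhood `U` consisting of convex polygons such that each bounded convex domain
isospectral to one of them is a polygon with as many vertices, and almost all polygons of `U` are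
determined -/
def DeterminedNearby {n : ℕ} (p₀ : Fin (n + 3) → ℂ) : Prop :=
  ∃ U G : Set (Fin (n + 3) → ℂ), IsOpen U ∧ p₀ ∈ U ∧ IsOpen G ∧ G ⊆ U ∧ volume (U \ G) = 0 ∧
    (∀ p ∈ U, IsConvexPolygon p ∧
      ∀ D : Set ℂ, ConvexDomain D → Isospectral (region p) D → IsPolygon (n + 3) D) ∧
    ∀ p ∈ G, Determined (region p)

/-- the least distance between two sides which are not adjacent -/
noncomputable def leastDistance {n : ℕ} (p : Fin (n + 3) → ℂ) : ℝ :=
  sInf {r : ℝ | ∃ i j : Fin (n + 3), j ≠ i ∧ j ≠ i + 1 ∧ i ≠ j + 1 ∧
    ∃ x ∈ segment ℝ (p i) (p (i + 1)), ∃ y ∈ segment ℝ (p j) (p (j + 1)), r = dist x y}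

/-- there is a disc inside the polygon which touches all sides -/
def Circumscribed {n : ℕ} (p : Fin (n + 3) → ℂ) : Prop :=
  ∃ (c : ℂ) (r : ℝ), 0 < r ∧ Metric.ball c r ⊆ region p ∧
    ∀ i, ∃ z ∈ segment ℝ (p i) (p (i + 1)), dist z c = r

theorem determined {n : ℕ} {p : Fin (n + 3) → ℂ} (hp : IsConvexPolygon p)
    (h : Pool.Agent.V5helper91.TX.Det p) : Determined (region p) := by
  refine ⟨fun D' hD hiso => ?_, ?_⟩
  · obtain ⟨m, q, hq, rfl, hi⟩ := Pool.Agent.V5helper91.TX.poly hp hD.isOpen hD.convex
      hD.isBounded hD.nonempty hiso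
    exact h m q hq hi
  · rintro N _ ⟨m, -, q, hq, rfl⟩ hev
    exact h m q hq (Pool.Agent.R225.LP.almost hp hq hev)

theorem convexDomain {n : ℕ} {p : Fin (n + 3) → ℂ} (hp : IsConvexPolygon p) :
    ConvexDomain (region p) := by
  obtain ⟨h1, -, h3, h4, -⟩ := Pool.Agent.W703.GP.region_facts hp
  exact ⟨h1, (convex_convexHull ℝ _).interior, h3, h4⟩

theorem nearby {n : ℕ} {p₀ : Fin (n + 3) → ℂ} (hp : IsConvexPolygon p₀)
    (hcomp : ∀ D : Set ℂ, ConvexDomain D → Isospectral (region p₀) D →
      ∃ r : Fin (n + 3) → ℂ, IsConvexPolygon r ∧ Congruent (region r) D ∧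
        ∀ k, ‖r (k + 1) - r k‖ < 2 * leastDistance p₀) : DeterminedNearby p₀ := by
  obtain ⟨U, G, h1, h2, h3, h4, h5, h6, h7⟩ := Pool.Agent.V5helper91.TX.near_det hp
    fun m q hq hiso => by
      obtain ⟨r, g1, g2, g3⟩ := hcomp (region q) (convexDomain hq) (fun k _ => hiso k)
      exact ⟨r, g1, g3, g2⟩
  refine ⟨U, G, h1, h2, h3, h4, h5, fun p hpU => ⟨(h6 p hpU).1, fun D hD hiso => ?_⟩,
    fun p hpG => determined (h6 p (h4 hpG)).1 (h7 p hpG)⟩
  obtain ⟨m, q, hq, rfl, hi⟩ := Pool.Agent.V5helper91.TX.poly (h6 p hpU).1 hD.isOpen hD.convex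
      hD.isBounded hD.nonempty hiso
  obtain rfl := (h6 p hpU).2 m q hq hi
  exact ⟨m, rfl, q, hq, rfl⟩

/-- `p₀ : Fin (n + 3) → ℂ` with `IsConvexPolygon p₀` lists the vertices of an arbitrary convex
polygon `region p₀` with `N = n + 3` vertices, in counterclockwise order; `volume` is Lebesgue
measure. The first part is the general principle. The second part is about circumscribed polygons
with equal angles, except the one at `p₀ k`, which is at least as large as the others. The third part
is about trapezoids; `p₀ 0 p₀ 1` and `p₀ 3 p₀ 2` are the parallel sides, `t` is their ratio, and the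
trapezoid is a parallelogram or two points on its different legs are never nearer than the two
parallel sides. -/
theorem result :
    (∀ (n : ℕ) (p₀ : Fin (n + 3) → ℂ), IsConvexPolygon p₀ →
      (∀ D : Set ℂ, ConvexDomain D → Isospectral (region p₀) D →
        ∃ r : Fin (n + 3) → ℂ, IsConvexPolygon r ∧ Congruent (region r) D ∧
          ∀ k, ‖r (k + 1) - r k‖ < 2 * leastDistance p₀) → DeterminedNearby p₀) ∧
    (∀ (n : ℕ) (p₀ : Fin (n + 3) → ℂ), IsConvexPolygon p₀ → Circumscribed p₀ →
      ∀ k : Fin (n + 3), (∀ i j, i ≠ k → j ≠ k →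
        EuclideanGeometry.angle (p₀ (i - 1)) (p₀ i) (p₀ (i + 1)) =
          EuclideanGeometry.angle (p₀ (j - 1)) (p₀ j) (p₀ (j + 1))) →
      (∀ i, EuclideanGeometry.angle (p₀ (i - 1)) (p₀ i) (p₀ (i + 1)) ≤
        EuclideanGeometry.angle (p₀ (k - 1)) (p₀ k) (p₀ (k + 1))) →
      Determined (region p₀) ∧ (2 ≤ n → DeterminedNearby p₀)) ∧
    ∀ p₀ : Fin (1 + 3) → ℂ, IsConvexPolygon p₀ → ∀ t : ℝ, 0 < t →
      p₀ 2 - p₀ 3 = t * (p₀ 1 - p₀ 0) →
      (t = 1 ∨ ∀ z ∈ segment ℝ (p₀ 0) (p₀ 3), ∀ w ∈ segment ℝ (p₀ 1) (p₀ 2),
        Metric.infDist (p₀ 3) (affineSpan ℝ {p₀ 0, p₀ 1} : Set ℂ) ≤ dist z w) →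
      (∀ k, ‖p₀ (k + 1) - p₀ k‖ < 2 * leastDistance p₀) → DeterminedNearby p₀ := by
  have key : ∀ {n : ℕ} {p : Fin (n + 3) → ℂ}, IsConvexPolygon p →
      Pool.Agent.V5helper91.TX.Det p → (∀ k, ‖p (k + 1) - p k‖ < 2 * leastDistance p) →
      DeterminedNearby p := fun hp h hs =>
    nearby hp fun D hD hiso => ⟨_, hp, (determined hp h).1 D hD hiso, hs⟩
  refine ⟨fun n p₀ hp hcomp => nearby hp hcomp, fun n p₀ hp hc k h1 h2 => ?_,
    fun p₀ hp t ht h hl hs => key hp (Pool.Agent.V5helper91.TX.trap_det hp ht h hl) hs⟩
  obtain ⟨c, r, hr, hb, ht⟩ := hc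
  have hcc := Pool.Agent.V5helper91.TX.circ_of_disc hp hr hb ht
  have hdet := Pool.Agent.V5helper91.TX.circ_det hp hcc h1 h2
  exact ⟨determined hp hdet, fun hn => key hp hdet
    (Pool.Agent.V5helper91.TX.circ_side hn hp hcc h1 h2)⟩

end Pool.Agent.Results.MP_5b0138_an.NearDeterminedPolygons
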